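import Pool.Agent.L7h80.RC.StmB

/-!
# Project RD, part WPR: separable equations over the power series in one parameter
-/

set_option autoImplicit false

namespace Pool.Agent.L7h15.RC

open MvPowerSeries Pool.Agent.L7h80.RC

/-- a derivation which vanishes on the coefficients -/
theorem der_eval₂ {A B : Type} [CommRing A] [CommRing B] [Algebra ℂ B] (φ : A →+* B)
    (D : Derivation ℂ B B) (hD : ∀ a, D (φ a) = 0) (y : B) (Q : Polynomial A) :
    D (Q.eval₂ φ y) = Q.derivative.eval₂ φ y * D y := by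
  induction Q using Polynomial.induction_on' with
  | add P Q hP hQ =>
    rw [Polynomial.eval₂_add, map_add, hP, hQ, Polynomial.derivative_add, Polynomial.eval₂_add,
      add_mul]
  | monomial m a =>
    rw [Polynomial.eval₂_monomial, Derivation.leibniz, hD, smul_zero, add_zero,
      Derivation.leibniz_pow, Polynomial.derivative_monomial, Polynomial.eval₂_monomial, map_mul,
      map_natCast, smul_eq_mul, smul_eq_mul, nsmul_eq_mul]
    ring

theorem subst_one' {n : ℕ} (i0 : Fin n) :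
    PowerSeries.subst (X i0 : PS n) (1 : PowerSeries ℂ) = 1 := by
  have h : PowerSeries.HasSubst (X i0 : PS n) :=
    PowerSeries.HasSubst.of_constantCoeff_zero (constantCoeff_X i0)
  rw [← PowerSeries.coe_substAlgHom h, map_one]

theorem s_WPR (h1 : S_FIN) (h2 : S_SUB) : S_WPR := by
  classical
  intro n p hp i0 hi0 hK i hi
  obtain ⟨e, b, hb⟩ := h1 n p hp i0 hi0 hK
  obtain ⟨hadd, hmul, hder, hinj⟩ := h2 n i0
  have hzero : PowerSeries.subst (X i0 : PS n) (0 : PowerSeries ℂ) = 0 := by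
    have := hadd 0 0
    rw [add_zero] at this
    exact left_eq_add.1 this
  obtain ⟨φ, hφ⟩ : ∃ φ : PowerSeries ℂ →+* PS n, ∀ F, φ F = PowerSeries.subst (X i0 : PS n) F :=
    ⟨{  toFun := fun F => PowerSeries.subst (X i0 : PS n) F
        map_one' := subst_one' i0
        map_mul' := hmul
        map_zero' := hzero
        map_add' := hadd }, fun _ => rfl⟩
  obtain ⟨ψ, hψ⟩ : ∃ ψ : PowerSeries ℂ →+* PS n ⧸ p, ψ = (Ideal.Quotient.mk p).comp φ := ⟨_, rfl⟩
  obtain ⟨x, hx⟩ : ∃ x : PS n ⧸ p, x = Ideal.Quotient.mk p (X i) := ⟨_, rfl⟩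
  have hfin : ψ.Finite := by
    let _ := ψ.toAlgebra
    refine ⟨⟨Finset.univ.image (fun j => Ideal.Quotient.mk p (b j)), ?_⟩⟩
    rw [eq_top_iff]
    intro y _
    obtain ⟨f, rfl⟩ := Ideal.Quotient.mk_surjective y
    obtain ⟨c, hc⟩ := hb f
    have h3 : Ideal.Quotient.mk p f = ∑ j, c j • Ideal.Quotient.mk p (b j) := by
      rw [← sub_eq_zero, ← Ideal.Quotient.eq_zero_iff_mem.2 hc, map_sub, map_sum]
      congr 1
      refine Finset.sum_congr rfl fun j _ => ?_
      rw [map_mul, ← hφ]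
      show ψ (c j) * _ = _
      rw [hψ]
      rfl
    rw [h3]
    refine Submodule.sum_mem _ fun j _ => Submodule.smul_mem _ _ (Submodule.subset_span ?_)
    exact Finset.mem_coe.2 (Finset.mem_image_of_mem _ (Finset.mem_univ j))
  obtain ⟨Q0, hQ0m, hQ0⟩ := hfin.to_isIntegral x
  have hex : ∃ d, ∃ Q : Polynomial (PowerSeries ℂ), Q ≠ 0 ∧ Q.eval₂ ψ x = 0 ∧ Q.natDegree = d :=
    ⟨_, Q0, hQ0m.ne_zero, hQ0, rfl⟩
  obtain ⟨Q, hQ1, hQ2, hQ3⟩ := Nat.find_spec hex
  have hmin : ∀ P : Polynomial (PowerSeries ℂ), P ≠ 0 → P.eval₂ ψ x = 0 →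
      Q.natDegree ≤ P.natDegree := by
    intro P hP0 hP
    rw [hQ3]
    exact Nat.find_min' hex ⟨P, hP0, hP, rfl⟩
  have hpos : Q.natDegree ≠ 0 := by
    intro h0
    obtain ⟨a, ha⟩ := Polynomial.natDegree_eq_zero.1 h0
    have ha0 : a ≠ 0 := by
      rintro rfl
      exact hQ1 (by rw [← ha, map_zero])
    rw [← ha, Polynomial.eval₂_C, hψ, RingHom.comp_apply, Ideal.Quotient.eq_zero_iff_mem,
      hφ] at hQ2
    exact hinj a p hp hi0 ha0 hQ2
  have htf : IsAddTorsionFree (PowerSeries ℂ) :=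
    inferInstanceAs (IsAddTorsionFree ((Unit →₀ ℕ) → ℂ))
  have hd0 : Q.derivative ≠ 0 := fun h => hpos (Polynomial.derivative_eq_zero.1 h)
  have hd1 : Q.derivative.eval₂ ψ x ≠ 0 := fun h =>
    absurd (hmin _ hd0 h) (not_le.2 (Polynomial.natDegree_derivative_lt hpos))
  have hev : ∀ P : Polynomial (PowerSeries ℂ),
      Ideal.Quotient.mk p (P.eval₂ φ (X i)) = P.eval₂ ψ x := by
    intro P
    rw [Polynomial.hom_eval₂, hψ, hx]
  refine ⟨Q.eval₂ φ (X i), ?_, ?_, ?_⟩
  · rw [← Ideal.Quotient.eq_zero_iff_mem, hev, hQ2]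
  · intro k hki hk0
    rw [der_eval₂ φ (pderiv ℂ k) (fun a => by rw [hφ]; exact hder a k hk0),
      MvPowerSeries.pderiv_X_of_ne (Ne.symm hki), mul_zero]
  · rw [der_eval₂ φ (pderiv ℂ i) (fun a => by rw [hφ]; exact hder a i hi),
      MvPowerSeries.pderiv_X_self, mul_one, ← Ideal.Quotient.eq_zero_iff_mem, hev]
    exact hd1

end Pool.Agent.L7h15.RC
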